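import Mathlib

set_option autoImplicit false

namespace Pool.Agent.Results.MP_f17d28_nt.TwoConvergents

open OnePoint

/-- The map `f_d(x) = (d x + k) / (x + d)` on `ℚ ∪ {∞}`, with `f(∞) = d` and `f(-d) = ∞`. -/
def f (k : ℕ) (d : ℚ) : OnePoint ℚ → OnePoint ℚ
  | ∞ => ((d : ℚ) : OnePoint ℚ)
  | OnePoint.some x => if x = -d then ∞ else (((d * x + k) / (x + d) : ℚ) : OnePoint ℚ)

/-- The partial quotients `c_0, c_1, …` of the simple continued fraction of a real number. -/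
noncomputable def partialQuotient (ξ : ℝ) : ℕ → ℤ
  | 0 => ⌊ξ⌋
  | n + 1 => partialQuotient (Int.fract ξ)⁻¹ n

/-- `L` is the minimal period length of `c_1, c_2, …`, where `[c_0; c_1, …]` is the continued
fraction of `ξ`. -/
def IsPeriodLength (ξ : ℝ) (L : ℕ) : Prop :=
  IsLeast {l : ℕ | 0 < l ∧ ∀ j : ℕ, 1 ≤ j → partialQuotient ξ (j + l) = partialQuotient ξ j} L

theorem f_infty (k : ℕ) (d : ℚ) : f k d ∞ = (d : OnePoint ℚ) := rfl

theorem f_coe (k : ℕ) (d x : ℚ) : f k d (x : OnePoint ℚ) =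
    if x = -d then ∞ else (((d * x + k) / (x + d) : ℚ) : OnePoint ℚ) := rfl

/-- the inverse map -/
def g (k : ℕ) (d : ℚ) : OnePoint ℚ → OnePoint ℚ
  | ∞ => ((-d : ℚ) : OnePoint ℚ)
  | OnePoint.some x => if x = d then ∞ else (((k - d * x) / (x - d) : ℚ) : OnePoint ℚ)

theorem g_infty (k : ℕ) (d : ℚ) : g k d ∞ = ((-d : ℚ) : OnePoint ℚ) := rfl

theorem g_coe (k : ℕ) (d x : ℚ) : g k d (x : OnePoint ℚ) =
    if x = d then ∞ else (((k - d * x) / (x - d) : ℚ) : OnePoint ℚ) := rfl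

theorem g_f (k : ℕ) (d : ℚ) (hkd : (k : ℚ) - d ^ 2 ≠ 0) (x : OnePoint ℚ) : g k d (f k d x) = x := by
  induction x using OnePoint.rec with
  | infty => rw [f_infty, g_coe, if_pos rfl]
  | coe x =>
    rw [f_coe]
    split_ifs with h
    · rw [g_infty, h]
    · have h1 : x + d ≠ 0 := fun h2 => h (by linarith)
      rw [g_coe, if_neg]
      · congr 1
        have h3 : (d * x + k) / (x + d) - d = (k - d ^ 2) / (x + d) := by
          field_simp; ring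
        have h4 : (k : ℚ) - d * ((d * x + k) / (x + d)) = (k - d ^ 2) * x / (x + d) := by
          field_simp; ring
        rw [h3, h4]
        field_simp
      · intro h2
        apply hkd
        have h5 : d * x + k = d * (x + d) := by
          rw [div_eq_iff h1] at h2; exact h2
        linarith

theorem f_g (k : ℕ) (d : ℚ) (hkd : (k : ℚ) - d ^ 2 ≠ 0) (x : OnePoint ℚ) : f k d (g k d x) = x := by
  induction x using OnePoint.rec with
  | infty => rw [g_infty, f_coe, if_pos rfl]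
  | coe x =>
    rw [g_coe]
    split_ifs with h
    · rw [f_infty, h]
    · have h1 : x - d ≠ 0 := fun h2 => h (by linarith)
      rw [f_coe, if_neg]
      · congr 1
        have h3 : (k - d * x) / (x - d) + d = (k - d ^ 2) / (x - d) := by
          field_simp; ring
        have h4 : d * ((k - d * x) / (x - d)) + (k : ℚ) = (k - d ^ 2) * x / (x - d) := by
          field_simp; ring
        rw [h3, h4]
        field_simp
      · intro h2
        apply hkd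
        rw [div_eq_iff h1] at h2
        linarith

/-- the norm form modulo squares -/
def nu : OnePoint ℚ → ℚ
  | ∞ => 1
  | OnePoint.some x => x ^ 2 - 43

theorem nu_step (x : OnePoint ℚ) : ∃ s : ℚ, s ≠ 0 ∧ nu (f 43 (59 / 9) x) = -2 * nu x * s ^ 2 := by
  induction x using OnePoint.rec with
  | infty =>
    refine ⟨1 / 9, by norm_num, ?_⟩
    rw [f_infty]
    show ((59 : ℚ) / 9) ^ 2 - 43 = -2 * 1 * (1 / 9) ^ 2
    norm_num
  | coe x =>
    rw [f_coe]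
    split_ifs with h
    · refine ⟨9 / 2, by norm_num, ?_⟩
      show (1 : ℚ) = -2 * (x ^ 2 - 43) * (9 / 2) ^ 2
      rw [h]; norm_num
    · have h1 : x + 59 / 9 ≠ 0 := fun h2 => h (by linarith)
      refine ⟨1 / (9 * (x + 59 / 9)), by positivity, ?_⟩
      show (((59 / 9 : ℚ) * x + (43 : ℕ)) / (x + 59 / 9)) ^ 2 - 43 =
        -2 * (x ^ 2 - 43) * (1 / (9 * (x + 59 / 9))) ^ 2
      have h2 : 9 * x + 59 ≠ 0 := fun h3 => h1 (by linarith)
      have h3 : ((59 / 9 : ℚ) * x + (43 : ℕ)) / (x + 59 / 9) = (59 * x + 387) / (9 * x + 59) := by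
        rw [div_eq_div_iff h1 h2]; push_cast; ring
      have h4 : (9 * (x + 59 / 9)) = 9 * x + 59 := by ring
      rw [h3, h4, div_pow, one_div, inv_pow, eq_comm, ← sub_eq_zero]
      have h5 : (9 * x + 59) ^ 2 ≠ 0 := pow_ne_zero 2 h2
      have h6 : -2 * (x ^ 2 - 43) * ((9 * x + 59) ^ 2)⁻¹ -
          ((59 * x + 387) ^ 2 / (9 * x + 59) ^ 2 - 43) =
          (-2 * (x ^ 2 - 43) - (59 * x + 387) ^ 2 + 43 * (9 * x + 59) ^ 2) / (9 * x + 59) ^ 2 := by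
        rw [div_eq_mul_inv, div_eq_mul_inv]
        linear_combination (43 : ℚ) * (1 - mul_inv_cancel₀ h5)
      rw [h6, div_eq_zero_iff]
      left
      ring

theorem six_not_sq (r : ℚ) : r ^ 2 ≠ 6 := by
  intro h
  have h1 : Irrational (√(6 : ℝ)) := by
    have := (Nat.Prime.irrational_sqrt (p := 2) Nat.prime_two)
    rw [show (6 : ℝ) = ((6 : ℕ) : ℝ) by norm_num, irrational_sqrt_natCast_iff]
    rintro ⟨m, hm⟩
    have h2 : m ≤ 2 := by nlinarith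
    interval_cases m <;> omega
  apply h1
  refine ⟨|r|, ?_⟩
  have h3 : ((|r| : ℚ) : ℝ) = √(((|r| : ℚ) : ℝ) ^ 2) := by
    rw [Real.sqrt_sq]
    exact_mod_cast abs_nonneg r
  rw [h3]
  congr 1
  have h4 : |r| ^ 2 = 6 := by rw [sq_abs]; exact h
  exact_mod_cast h4

/-- forward orbit of infinity misses `13/2` -/
theorem fwd (n : ℕ) : ∃ r : ℚ, nu ((f 43 (59 / 9))^[n] ∞) = r ^ 2 ∨
    nu ((f 43 (59 / 9))^[n] ∞) = -2 * r ^ 2 := by
  induction n with
  | zero => exact ⟨1, Or.inl (by show (1 : ℚ) = 1 ^ 2; norm_num)⟩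
  | succ n ih =>
    obtain ⟨r, hr⟩ := ih
    obtain ⟨s, _, hs⟩ := nu_step ((f 43 (59 / 9))^[n] ∞)
    rw [Function.iterate_succ_apply']
    rcases hr with h | h
    · exact ⟨r * s, Or.inr (by rw [hs, h]; ring)⟩
    · exact ⟨2 * r * s, Or.inl (by rw [hs, h]; ring)⟩

/-- forward orbit of `13/2` misses infinity -/
theorem bwd (n : ℕ) : ∃ r : ℚ,
    nu ((f 43 (59 / 9))^[n] ((13 / 2 : ℚ) : OnePoint ℚ)) = -3 * r ^ 2 ∨
    nu ((f 43 (59 / 9))^[n] ((13 / 2 : ℚ) : OnePoint ℚ)) = 6 * r ^ 2 := by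
  induction n with
  | zero => exact ⟨1 / 2, Or.inl (by show ((13 / 2 : ℚ)) ^ 2 - 43 = -3 * (1 / 2) ^ 2; norm_num)⟩
  | succ n ih =>
    obtain ⟨r, hr⟩ := ih
    obtain ⟨s, _, hs⟩ := nu_step ((f 43 (59 / 9))^[n] ((13 / 2 : ℚ) : OnePoint ℚ))
    rw [Function.iterate_succ_apply']
    rcases hr with h | h
    · exact ⟨r * s, Or.inr (by rw [hs, h]; ring)⟩
    · exact ⟨2 * r * s, Or.inl (by rw [hs, h]; ring)⟩

/-- one step of the continued fraction expansion of a quadratic irrational -/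
theorem step {s P Q P' Q' : ℝ} (a : ℤ) (hs : s ^ 2 = 43) (hQ : Q ≠ 0) (hQ' : Q' ≠ 0)
    (hP' : P' = a * Q - P) (hQQ : Q * Q' = 43 - P' ^ 2)
    (h1 : (a : ℝ) ≤ (s + P) / Q) (h2 : (s + P) / Q < a + 1) :
    ⌊(s + P) / Q⌋ = a ∧ (Int.fract ((s + P) / Q))⁻¹ = (s + P') / Q' := by
  have hfl : ⌊(s + P) / Q⌋ = a := Int.floor_eq_iff.mpr ⟨h1, h2⟩
  refine ⟨hfl, ?_⟩
  have h3 : Int.fract ((s + P) / Q) = (s - P') / Q := by
    rw [Int.fract, hfl, hP']
    field_simp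
    ring
  rw [h3, inv_div]
  have h4 : (s - P') * (s + P') = Q * Q' := by rw [hQQ]; nlinarith
  have h5 : s - P' ≠ 0 := by
    intro h6
    rw [h6, zero_mul] at h4
    exact (mul_ne_zero hQ hQ') h4.symm
  rw [div_eq_div_iff h5 hQ']
  linarith

theorem pq_succ (ξ : ℝ) (n : ℕ) :
    partialQuotient ξ (n + 1) = partialQuotient (Int.fract ξ)⁻¹ n := rfl

theorem pq_zero (ξ : ℝ) : partialQuotient ξ 0 = ⌊ξ⌋ := rfl

theorem s_bounds : (6.557 : ℝ) < √(43 : ℝ) ∧ √(43 : ℝ) < 6.558 := by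
  constructor
  · apply Real.lt_sqrt_of_sq_lt; norm_num
  · rw [Real.sqrt_lt' (by norm_num)]; norm_num

theorem s_sq : √(43 : ℝ) ^ 2 = 43 := Real.sq_sqrt (by norm_num)

theorem e0 : ⌊√(43 : ℝ)⌋ = 6 ∧ (Int.fract √(43 : ℝ))⁻¹ = (√(43 : ℝ) + 6) / 7 := by
  obtain ⟨hb1, hb2⟩ := s_bounds
  have h := step (s := √(43 : ℝ)) (P := 0) (Q := 1) (P' := 6) (Q' := 7) 6 s_sq (by norm_num)
    (by norm_num) (by norm_num) (by norm_num)
    (by push_cast; linarith) (by push_cast; linarith)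
  simpa using h

theorem e1 : ⌊(√(43 : ℝ) + 6) / 7⌋ = 1 ∧ (Int.fract ((√(43 : ℝ) + 6) / 7))⁻¹ =
    (√(43 : ℝ) + 1) / 6 := by
  obtain ⟨hb1, hb2⟩ := s_bounds
  exact step 1 s_sq (by norm_num) (by norm_num) (by norm_num) (by norm_num)
    (by push_cast; linarith) (by push_cast; linarith)

theorem e2 : ⌊(√(43 : ℝ) + 1) / 6⌋ = 1 ∧ (Int.fract ((√(43 : ℝ) + 1) / 6))⁻¹ =
    (√(43 : ℝ) + 5) / 3 := by
  obtain ⟨hb1, hb2⟩ := s_bounds
  exact step 1 s_sq (by norm_num) (by norm_num) (by norm_num) (by norm_num)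
    (by push_cast; linarith) (by push_cast; linarith)

theorem e3 : ⌊(√(43 : ℝ) + 5) / 3⌋ = 3 ∧ (Int.fract ((√(43 : ℝ) + 5) / 3))⁻¹ =
    (√(43 : ℝ) + 4) / 9 := by
  obtain ⟨hb1, hb2⟩ := s_bounds
  exact step 3 s_sq (by norm_num) (by norm_num) (by norm_num) (by norm_num)
    (by push_cast; linarith) (by push_cast; linarith)

theorem e4 : ⌊(√(43 : ℝ) + 4) / 9⌋ = 1 ∧ (Int.fract ((√(43 : ℝ) + 4) / 9))⁻¹ =
    (√(43 : ℝ) + 5) / 2 := by
  obtain ⟨hb1, hb2⟩ := s_bounds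
  exact step 1 s_sq (by norm_num) (by norm_num) (by norm_num) (by norm_num)
    (by push_cast; linarith) (by push_cast; linarith)

theorem e5 : ⌊(√(43 : ℝ) + 5) / 2⌋ = 5 ∧ (Int.fract ((√(43 : ℝ) + 5) / 2))⁻¹ =
    (√(43 : ℝ) + 5) / 9 := by
  obtain ⟨hb1, hb2⟩ := s_bounds
  exact step 5 s_sq (by norm_num) (by norm_num) (by norm_num) (by norm_num)
    (by push_cast; linarith) (by push_cast; linarith)

theorem e6 : ⌊(√(43 : ℝ) + 5) / 9⌋ = 1 ∧ (Int.fract ((√(43 : ℝ) + 5) / 9))⁻¹ =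
    (√(43 : ℝ) + 4) / 3 := by
  obtain ⟨hb1, hb2⟩ := s_bounds
  exact step 1 s_sq (by norm_num) (by norm_num) (by norm_num) (by norm_num)
    (by push_cast; linarith) (by push_cast; linarith)

theorem e7 : ⌊(√(43 : ℝ) + 4) / 3⌋ = 3 ∧ (Int.fract ((√(43 : ℝ) + 4) / 3))⁻¹ =
    (√(43 : ℝ) + 5) / 6 := by
  obtain ⟨hb1, hb2⟩ := s_bounds
  exact step 3 s_sq (by norm_num) (by norm_num) (by norm_num) (by norm_num)
    (by push_cast; linarith) (by push_cast; linarith)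

theorem e8 : ⌊(√(43 : ℝ) + 5) / 6⌋ = 1 ∧ (Int.fract ((√(43 : ℝ) + 5) / 6))⁻¹ =
    (√(43 : ℝ) + 1) / 7 := by
  obtain ⟨hb1, hb2⟩ := s_bounds
  exact step 1 s_sq (by norm_num) (by norm_num) (by norm_num) (by norm_num)
    (by push_cast; linarith) (by push_cast; linarith)

theorem e9 : ⌊(√(43 : ℝ) + 1) / 7⌋ = 1 ∧ (Int.fract ((√(43 : ℝ) + 1) / 7))⁻¹ =
    (√(43 : ℝ) + 6) / 1 := by
  obtain ⟨hb1, hb2⟩ := s_bounds
  exact step 1 s_sq (by norm_num) (by norm_num) (by norm_num) (by norm_num)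
    (by push_cast; linarith) (by push_cast; linarith)

theorem e10 : ⌊(√(43 : ℝ) + 6) / 1⌋ = 12 ∧ (Int.fract ((√(43 : ℝ) + 6) / 1))⁻¹ =
    (√(43 : ℝ) + 6) / 7 := by
  obtain ⟨hb1, hb2⟩ := s_bounds
  exact step 12 s_sq (by norm_num) (by norm_num) (by norm_num) (by norm_num)
    (by push_cast; linarith) (by push_cast; linarith)

theorem per10 (n : ℕ) : partialQuotient ((√(43 : ℝ) + 6) / 7) (n + 10) =
    partialQuotient ((√(43 : ℝ) + 6) / 7) n := by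
  show partialQuotient ((√(43 : ℝ) + 6) / 7) (n + 9 + 1) = _
  rw [pq_succ, e1.2]
  show partialQuotient ((√(43 : ℝ) + 1) / 6) (n + 8 + 1) = _
  rw [pq_succ, e2.2]
  show partialQuotient ((√(43 : ℝ) + 5) / 3) (n + 7 + 1) = _
  rw [pq_succ, e3.2]
  show partialQuotient ((√(43 : ℝ) + 4) / 9) (n + 6 + 1) = _
  rw [pq_succ, e4.2]
  show partialQuotient ((√(43 : ℝ) + 5) / 2) (n + 5 + 1) = _
  rw [pq_succ, e5.2]
  show partialQuotient ((√(43 : ℝ) + 5) / 9) (n + 4 + 1) = _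
  rw [pq_succ, e6.2]
  show partialQuotient ((√(43 : ℝ) + 4) / 3) (n + 3 + 1) = _
  rw [pq_succ, e7.2]
  show partialQuotient ((√(43 : ℝ) + 5) / 6) (n + 2 + 1) = _
  rw [pq_succ, e8.2]
  show partialQuotient ((√(43 : ℝ) + 1) / 7) (n + 1 + 1) = _
  rw [pq_succ, e9.2]
  rw [pq_succ, e10.2]

theorem pq_one : partialQuotient √(43 : ℝ) 1 = 1 := by
  rw [pq_succ, e0.2, pq_zero, e1.1]

theorem pq_shift (n : ℕ) : partialQuotient √(43 : ℝ) (n + 1) =
    partialQuotient ((√(43 : ℝ) + 6) / 7) n := by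
  rw [pq_succ, e0.2]

theorem pq_vals : partialQuotient ((√(43 : ℝ) + 6) / 7) 0 = 1 ∧
    partialQuotient ((√(43 : ℝ) + 6) / 7) 1 = 1 ∧ partialQuotient ((√(43 : ℝ) + 6) / 7) 2 = 3 ∧
    partialQuotient ((√(43 : ℝ) + 6) / 7) 3 = 1 ∧ partialQuotient ((√(43 : ℝ) + 6) / 7) 4 = 5 ∧
    partialQuotient ((√(43 : ℝ) + 6) / 7) 5 = 1 ∧ partialQuotient ((√(43 : ℝ) + 6) / 7) 6 = 3 ∧
    partialQuotient ((√(43 : ℝ) + 6) / 7) 7 = 1 ∧ partialQuotient ((√(43 : ℝ) + 6) / 7) 8 = 1 ∧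
    partialQuotient ((√(43 : ℝ) + 6) / 7) 9 = 12 := by
  refine ⟨?_, ?_, ?_, ?_, ?_, ?_, ?_, ?_, ?_, ?_⟩ <;>
  simp only [partialQuotient, e1.2, e2.2, e3.2, e4.2, e5.2, e6.2, e7.2, e8.2, e9.2, e1.1, e2.1,
    e3.1, e4.1, e5.1, e6.1, e7.1, e8.1, e9.1, e10.1]

theorem period : IsPeriodLength √(43 : ℝ) 10 := by
  constructor
  · refine ⟨by norm_num, ?_⟩
    intro j hj
    obtain ⟨n, rfl⟩ : ∃ n, j = n + 1 := ⟨j - 1, by omega⟩
    rw [show n + 1 + 10 = (n + 10) + 1 by ring, pq_shift, pq_shift, per10]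
  · rintro l ⟨hl0, hl⟩
    by_contra hlt
    push Not at hlt
    have h10 := hl 10 (by norm_num)
    obtain ⟨v0, v1, v2, v3, v4, v5, v6, v7, v8, v9⟩ := pq_vals
    have h11 : partialQuotient √(43 : ℝ) 10 = 12 := by
      rw [show (10 : ℕ) = 9 + 1 by norm_num, pq_shift, v9]
    have h12 : partialQuotient √(43 : ℝ) (10 + l) = partialQuotient ((√(43 : ℝ) + 6) / 7) (l - 1) := by
      rw [show 10 + l = (l - 1 + 10) + 1 by omega, pq_shift, per10]
    rw [h11, h12] at h10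
    interval_cases l <;> simp only [Nat.reduceSub] at h10 <;> omega

theorem conv2 : Real.convergent √(43 : ℝ) 2 = 13 / 2 := by
  rw [Real.convergent_succ, e0.2, e0.1, Real.convergent_succ, e1.2, e1.1, Real.convergent_zero,
    e2.1]
  norm_num

theorem conv7 : Real.convergent √(43 : ℝ) 7 = 1541 / 235 := by
  rw [Real.convergent_succ, e0.2, e0.1, Real.convergent_succ, e1.2, e1.1, Real.convergent_succ,
    e2.2, e2.1, Real.convergent_succ, e3.2, e3.1, Real.convergent_succ, e4.2, e4.1,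
    Real.convergent_succ, e5.2, e5.1, Real.convergent_succ, e6.2, e6.1, Real.convergent_zero,
    e7.1]
  norm_num

/-- There are a nonsquare `k`, a positive rational `d` with `R = 4d²/(k-d²)` an integer, and a
rational `x₀` outside the (two-sided) orbit of `∞` whose forward orbit contains two convergents
`p_i/q_i`, `p_j/q_j` of `√k` with `i ≢ j (mod L)`, `L` being the minimal period length. -/
theorem result : ∃ (k : ℕ) (d x₀ : ℚ) (F : Equiv.Perm (OnePoint ℚ)) (L i j : ℕ),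
    0 < k ∧ ¬ IsSquare k ∧ 0 < d ∧ (∃ R : ℤ, 4 * d ^ 2 / ((k : ℚ) - d ^ 2) = (R : ℚ)) ∧
    (∀ x, F x = f k d x) ∧
    (∀ n : ℤ, (F ^ n) ∞ ≠ (x₀ : OnePoint ℚ)) ∧
    IsPeriodLength √(k : ℝ) L ∧ 1 ≤ i ∧ 1 ≤ j ∧ ¬ (i ≡ j [MOD L]) ∧
    (∃ n : ℕ, (f k d)^[n] (x₀ : OnePoint ℚ) = ((Real.convergent √(k : ℝ) (i - 1) : ℚ) : OnePoint ℚ)) ∧
    (∃ n : ℕ, (f k d)^[n] (x₀ : OnePoint ℚ) = ((Real.convergent √(k : ℝ) (j - 1) : ℚ) : OnePoint ℚ)) := by
  have hkd : ((43 : ℕ) : ℚ) - (59 / 9) ^ 2 ≠ 0 := by norm_num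
  let F : Equiv.Perm (OnePoint ℚ) :=
    ⟨f 43 (59 / 9), g 43 (59 / 9), g_f 43 (59 / 9) hkd, f_g 43 (59 / 9) hkd⟩
  have hFn : ∀ (n : ℕ) (x : OnePoint ℚ), (F ^ n) x = (f 43 (59 / 9))^[n] x := by
    intro n x
    have h := congrFun (Equiv.Perm.iterate_eq_pow F n) x
    exact h.symm
  have h43 : √((43 : ℕ) : ℝ) = √(43 : ℝ) := by norm_num
  refine ⟨43, 59 / 9, 13 / 2, F, 10, 3, 8, by norm_num, ?_, by norm_num, ⟨6962, by norm_num⟩,
    fun _ => rfl, ?_, ?_, by norm_num, by norm_num, by decide, ⟨0, ?_⟩, ⟨1, ?_⟩⟩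
  · rintro ⟨m, hm⟩
    have h2 : m ≤ 6 := by nlinarith
    interval_cases m <;> omega
  · intro n hn
    obtain ⟨N, rfl | rfl⟩ := n.eq_nat_or_neg
    · rw [zpow_natCast, hFn] at hn
      obtain ⟨r, hr⟩ := fwd N
      rw [hn] at hr
      have hnu : nu ((13 / 2 : ℚ) : OnePoint ℚ) = -3 / 4 := by
        show ((13 / 2 : ℚ)) ^ 2 - 43 = -3 / 4
        norm_num
      rw [hnu] at hr
      rcases hr with h | h
      · nlinarith [sq_nonneg r]
      · exact six_not_sq (4 * r) (by linarith)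
    · rw [zpow_neg, zpow_natCast, Equiv.Perm.inv_eq_iff_eq, hFn] at hn
      obtain ⟨r, hr⟩ := bwd N
      rw [← hn] at hr
      have hnu : nu ∞ = 1 := rfl
      rw [hnu] at hr
      rcases hr with h | h
      · nlinarith [sq_nonneg r]
      · exact six_not_sq (6 * r) (by linarith)
  · rw [h43]; exact period
  · rw [h43]
    show ((13 / 2 : ℚ) : OnePoint ℚ) = ((Real.convergent √(43 : ℝ) 2 : ℚ) : OnePoint ℚ)
    rw [conv2]
  · rw [h43]
    show f 43 (59 / 9) ((13 / 2 : ℚ) : OnePoint ℚ) =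
      ((Real.convergent √(43 : ℝ) 7 : ℚ) : OnePoint ℚ)
    rw [conv7, f_coe, if_neg (by norm_num)]
    congr 1
    norm_num

end Pool.Agent.Results.MP_f17d28_nt.TwoConvergents
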